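import Mathlib

/-!
Baire category module (module B of `MP_7f87b1_gt`).
-/

namespace Pool.Agent.Helper78.SG

open Set Topology

/-- In a second countable (weakly) locally compact space there is a countable family of compact sets
containing a neighbourhood base of compact sets at every point (no separation assumed). -/
theorem exists_countable_compacts (G : Type*) [TopologicalSpace G] [SecondCountableTopology G]
    [LocallyCompactSpace G] :
    ∃ 𝒞 : Set (Set G), 𝒞.Countable ∧ (∀ C ∈ 𝒞, IsCompact C) ∧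
      ∀ (g : G), ∀ W ∈ 𝓝 g, ∃ C ∈ 𝒞, C ∈ 𝓝 g ∧ C ⊆ W := by
  classical
  set B := TopologicalSpace.countableBasis G with hB
  have hBc : B.Countable := TopologicalSpace.countable_countableBasis G
  have hBb : TopologicalSpace.IsTopologicalBasis B := TopologicalSpace.isBasis_countableBasis G
  -- good pairs
  let P : Set (Set G × Set G) :=
    {p | p ∈ B ×ˢ B ∧ ∃ K : Set G, IsCompact K ∧ p.1 ⊆ K ∧ K ⊆ p.2}
  have hP : P.Countable := (hBc.prod hBc).mono (fun p hp => hp.1)
  let K : Set G × Set G → Set G := fun p =>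
    if h : ∃ K : Set G, IsCompact K ∧ p.1 ⊆ K ∧ K ⊆ p.2 then h.choose else ∅
  have hK : ∀ p ∈ P, IsCompact (K p) ∧ p.1 ⊆ K p ∧ K p ⊆ p.2 := by
    intro p hp
    have h := hp.2
    simp only [K, dif_pos h]
    exact h.choose_spec
  refine ⟨K '' P, hP.image K, ?_, ?_⟩
  · rintro C ⟨p, hp, rfl⟩
    exact (hK p hp).1
  · intro g W hW
    obtain ⟨V, hVB, hgV, hVW⟩ := hBb.mem_nhds_iff.1 hW
    have hVn : V ∈ 𝓝 g := (hBb.isOpen hVB).mem_nhds hgV
    obtain ⟨L, hLn, hLV, hLc⟩ := local_compact_nhds hVn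
    obtain ⟨U, hUB, hgU, hUL⟩ := hBb.mem_nhds_iff.1 hLn
    have hp : (U, V) ∈ P := ⟨⟨hUB, hVB⟩, L, hLc, hUL, hLV⟩
    have h := hK _ hp
    refine ⟨K (U, V), ⟨_, hp, rfl⟩, ?_, h.2.2.trans hVW⟩
    exact Filter.mem_of_superset ((hBb.isOpen hUB).mem_nhds hgU) h.2.1

/-- The complement of the frontier of a closed set is dense. -/
theorem dense_compl_frontier_closed {M : Type*} [TopologicalSpace M] {F : Set M}
    (hF : IsClosed F) : Dense (frontier F)ᶜ := by
  rw [← interior_eq_empty_iff_dense_compl]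
  exact interior_frontier hF

/-- The complement of the frontier of an open set is dense. -/
theorem dense_compl_frontier_open {M : Type*} [TopologicalSpace M] {U : Set M}
    (hU : IsOpen U) : Dense (frontier U)ᶜ := by
  rw [← frontier_compl]
  exact dense_compl_frontier_closed hU.isClosed_compl

theorem dense_generic {M G : Type*} [TopologicalSpace M] [T2Space M] [LocallyCompactSpace M]
    [TopologicalSpace G] [SecondCountableTopology G] [LocallyCompactSpace G] (s t : G → M)
    (hs : Continuous s) (ht : Continuous t) (R : ℕ → Set M) (hR : ∀ k, IsOpen (R k)) :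
    Dense {x : M | (∀ k, x ∉ frontier (R k)) ∧ ∀ g, s g = x → t g = x →
      ∀ W ∈ nhds g, {y | ∃ h ∈ W, s h = y ∧ t h = y} ∈ nhds x} := by
  obtain ⟨𝒞, h𝒞c, h𝒞k, h𝒞⟩ := exists_countable_compacts G
  have hI : IsClosed {g : G | s g = t g} := isClosed_eq hs ht
  have hF : ∀ C ∈ 𝒞, IsClosed (s '' (C ∩ {g : G | s g = t g})) := by
    intro C hC
    exact (((h𝒞k C hC).inter_right hI).image hs).isClosed
  have : Countable 𝒞 := h𝒞c.to_subtype
  have hD : Dense (⋂ i : ℕ ⊕ 𝒞, Sum.elim (fun k => (frontier (R k))ᶜ)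
      (fun C => (frontier (s '' ((C : Set G) ∩ {g : G | s g = t g})))ᶜ) i) := by
    apply dense_iInter_of_isOpen
    · rintro (k | C)
      · exact isClosed_frontier.isOpen_compl
      · exact isClosed_frontier.isOpen_compl
    · rintro (k | C)
      · exact dense_compl_frontier_open (hR k)
      · exact dense_compl_frontier_closed (hF C.1 C.2)
  refine hD.mono ?_
  intro x hx
  rw [mem_iInter] at hx
  refine ⟨fun k => hx (Sum.inl k), ?_⟩
  intro g hsg htg W hW
  obtain ⟨C, hC, hCn, hCW⟩ := h𝒞 g W hW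
  have hx' : x ∉ frontier (s '' (C ∩ {g : G | s g = t g})) := hx (Sum.inr ⟨C, hC⟩)
  have hxF : x ∈ s '' (C ∩ {g : G | s g = t g}) :=
    ⟨g, ⟨mem_of_mem_nhds hCn, by simp [hsg, htg]⟩, hsg⟩
  have hint : x ∈ interior (s '' (C ∩ {g : G | s g = t g})) := by
    by_contra hni
    apply hx'
    rw [frontier, (hF C hC).closure_eq]
    exact ⟨hxF, hni⟩
  refine Filter.mem_of_superset (mem_interior_iff_mem_nhds.1 hint) ?_
  rintro y ⟨h, ⟨hhC, hh⟩, rfl⟩
  exact ⟨h, hCW hhC, rfl, (show s h = t h from hh).symm⟩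

end Pool.Agent.Helper78.SG
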