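import Mathlib

/-!
Countability of the commutator subgroup (module C of `MP_7f87b1_gt`).
-/

namespace Pool.Agent.Helper78.SG

open scoped commutatorElement

/-- The subgroup generated by a countable set is countable. -/
theorem countable_closure {Γ : Type*} [Group Γ] {S : Set Γ} (hS : S.Countable) :
    ((Subgroup.closure S : Subgroup Γ) : Set Γ).Countable := by
  have : Countable S := hS.to_subtype
  classical
  have hc : Countable (FreeGroup S) := by
    have : Function.Surjective (FreeGroup.mk : List (S × Bool) → FreeGroup S) := by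
      intro x
      exact ⟨x.toWord, FreeGroup.mk_toWord⟩
    exact this.countable
  have h1 : (FreeGroup.lift (fun s : S => (s : Γ))).range = Subgroup.closure S := by
    rw [FreeGroup.range_lift_eq_closure]
    simp
  rw [← h1]
  have : ((FreeGroup.lift (fun s : S => (s : Γ))).range : Set Γ)
      = Set.range (FreeGroup.lift (fun s : S => (s : Γ))) := by
    exact MonoidHom.coe_range _
  rw [this]
  exact Set.countable_range _

theorem countable_commutator {Γ : Type*} [Group Γ] (S : Set Γ) (hS : S.Countable)
    (h : ∀ g : Γ, ∃ s ∈ S, ∀ k : Γ, ⁅g, k⁆ = ⁅s, k⁆) :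
    ((commutator Γ : Subgroup Γ) : Set Γ).Countable := by
  rw [commutator_eq_closure]
  apply countable_closure
  have hsub : commutatorSet Γ ⊆ (fun p : Γ × Γ => ⁅p.1, p.2⁆) '' (S ×ˢ S) := by
    rintro x ⟨g, k, rfl⟩
    obtain ⟨s, hs, hg⟩ := h g
    obtain ⟨t, ht, hk⟩ := h k
    refine ⟨(s, t), ⟨hs, ht⟩, ?_⟩
    show ⁅s, t⁆ = ⁅g, k⁆
    rw [hg k, ← commutatorElement_inv k s, hk s, commutatorElement_inv]
  exact ((hS.prod hS).image _).mono hsub

end Pool.Agent.Helper78.SG
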